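import Pool.Agent.Helper54.DT.StmtsS

namespace Pool.Agent.Helper46.DCT

open Finset Pool.Agent.Helper54.ETR Pool.Agent.Helper54.Poly Pool.Agent.Helper54.DT

theorem st_DIR (hG : ST_GINV) : ST_DIR := by
  intro M R E tg S X hM hS hX0 htight hsoc
  obtain ⟨l, hl⟩ := hG M R (fun i j => 2 * ∑ c ∈ range M, S i j c * X c) E tg
    (by
      intro i j
      congr 1
      refine Finset.sum_congr rfl fun c _ => ?_
      rw [hS.s1 i j c])
    (by
      intro w hw
      have h := hsoc w hw
      have e : ∑ i ∈ Ico 1 M, ∑ j ∈ Ico 1 M, w i * w j * (2 * ∑ c ∈ range M, S i j c * X c) =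
          2 * ∑ a ∈ Ico 1 M, ∑ b ∈ Ico 1 M, w a * w b * ∑ c ∈ range M, S a b c * X c := by
        simp only [Finset.mul_sum]
        refine Finset.sum_congr rfl fun a _ => Finset.sum_congr rfl fun b _ =>
          Finset.sum_congr rfl fun c _ => ?_
        ring
      rw [e]
      linarith)
  refine ⟨fun r α b β => X α * l r b * X β, ?_, ?_⟩
  · intro r hr ht b _ c _
    have h := htight r hr ht
    unfold lf at h
    calc ∑ m ∈ range M, E r m * (X m * l r b * X c)
        = (∑ m ∈ range M, E r m * X m) * (l r b * X c) := by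
          rw [Finset.sum_mul]
          refine Finset.sum_congr rfl fun m _ => ?_
          ring
      _ = 0 := by rw [h, zero_mul]
  · intro v
    set G : ℕ → ℕ → ℝ := fun a b => 2 * (∑ c ∈ range M, S a b c * X c) +
      ∑ r ∈ range R, (if tg r then E r a * l r b + E r b * l r a else 0) with hGd
    have hloc : ∀ a α b β, locF M R E tg S (fun a b c => X a * X b * X c)
        (fun r α b β => X α * l r b * X β) a α b β = X α * X β * G a b := by
      intro a α b β
      unfold locF
      simp only [hGd]
      rw [mul_add]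
      congr 1
      · rw [Finset.mul_sum, Finset.mul_sum]
        refine Finset.sum_congr rfl fun c _ => ?_
        ring
      · rw [Finset.mul_sum]
        refine Finset.sum_congr rfl fun r _ => ?_
        split_ifs
        · ring
        · ring
    set V : ℕ → ℝ := fun a => ∑ α ∈ range M, v a α * X α with hV
    have h1 : ∑ a ∈ Ico 1 M, ∑ α ∈ range M, ∑ b ∈ Ico 1 M, ∑ β ∈ range M,
        v a α * v b β * locF M R E tg S (fun a b c => X a * X b * X c)
          (fun r α b β => X α * l r b * X β) a α b β =
        ∑ a ∈ Ico 1 M, ∑ b ∈ Ico 1 M, V a * V b * G a b := by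
      refine Finset.sum_congr rfl fun a _ => ?_
      rw [Finset.sum_comm]
      refine Finset.sum_congr rfl fun b _ => ?_
      simp only [hV]
      rw [Finset.sum_mul_sum, Finset.sum_mul]
      refine Finset.sum_congr rfl fun α _ => ?_
      rw [Finset.sum_mul]
      refine Finset.sum_congr rfl fun β _ => ?_
      rw [hloc]
      ring
    have h2 : ∑ a ∈ Ico 1 M, ∑ b ∈ Ico 1 M, V a * V b * G a b =
        (∑ i ∈ Ico 1 M, ∑ j ∈ Ico 1 M, V i * V j * (2 * ∑ c ∈ range M, S i j c * X c)) +
        2 * ∑ r ∈ range R, (if tg r then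
          (∑ i ∈ Ico 1 M, E r i * V i) * (∑ i ∈ Ico 1 M, l r i * V i) else 0) := by
      simp only [hGd, mul_add, Finset.sum_add_distrib]
      congr 1
      have h3 : ∀ r, (if tg r then (∑ i ∈ Ico 1 M, E r i * V i) * (∑ i ∈ Ico 1 M, l r i * V i)
          else 0) * 2 = ∑ a ∈ Ico 1 M, ∑ b ∈ Ico 1 M, V a * V b *
            (if tg r then E r a * l r b + E r b * l r a else 0) := by
        intro r
        split_ifs
        · have e1 : ∑ a ∈ Ico 1 M, ∑ b ∈ Ico 1 M, V a * V b * (E r a * l r b) =
              (∑ i ∈ Ico 1 M, E r i * V i) * (∑ i ∈ Ico 1 M, l r i * V i) := by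
            rw [Finset.sum_mul_sum]
            refine Finset.sum_congr rfl fun a _ => Finset.sum_congr rfl fun b _ => ?_
            ring
          have e2 : ∑ a ∈ Ico 1 M, ∑ b ∈ Ico 1 M, V a * V b * (E r b * l r a) =
              (∑ i ∈ Ico 1 M, E r i * V i) * (∑ i ∈ Ico 1 M, l r i * V i) := by
            rw [mul_comm (∑ i ∈ Ico 1 M, E r i * V i), Finset.sum_mul_sum]
            refine Finset.sum_congr rfl fun a _ => Finset.sum_congr rfl fun b _ => ?_
            ring
          simp only [mul_add, Finset.sum_add_distrib]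
          rw [e1, e2]
          ring
        · simp
      have e4 : 2 * ∑ r ∈ range R, (if tg r then
          (∑ i ∈ Ico 1 M, E r i * V i) * (∑ i ∈ Ico 1 M, l r i * V i) else 0) =
          ∑ r ∈ range R, ∑ a ∈ Ico 1 M, ∑ b ∈ Ico 1 M, V a * V b *
            (if tg r then E r a * l r b + E r b * l r a else 0) := by
        rw [Finset.mul_sum]
        refine Finset.sum_congr rfl fun r _ => ?_
        rw [mul_comm, h3]
      rw [e4]
      symm
      calc ∑ r ∈ range R, ∑ a ∈ Ico 1 M, ∑ b ∈ Ico 1 M, V a * V b *
            (if tg r then E r a * l r b + E r b * l r a else 0)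
          = ∑ a ∈ Ico 1 M, ∑ r ∈ range R, ∑ b ∈ Ico 1 M, V a * V b *
            (if tg r then E r a * l r b + E r b * l r a else 0) := Finset.sum_comm
        _ = _ := by
          refine Finset.sum_congr rfl fun a _ => ?_
          rw [Finset.sum_comm]
          refine Finset.sum_congr rfl fun b _ => ?_
          exact (Finset.mul_sum _ _ _).symm
    rw [h1, h2]
    exact hl V

end Pool.Agent.Helper46.DCT
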