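import Pool.Agent.Helper46.DCT.SOC

namespace Pool.Agent.Helper46.DCT

open Finset Pool.Agent.Helper54.ETR Pool.Agent.Helper54.Poly Pool.Agent.Helper54.DT

/-- the point mass at a minimizer -/
theorem core (hSOC : ST_SOC) (hDIR : ST_DIR) (M R : ℕ) (E : ℕ → ℕ → ℝ) (kd : ℕ → ℕ)
    (S : ℕ → ℕ → ℕ → ℝ) (hM : 1 ≤ M) (hS : Ten S) (P : ℕ → ℝ) (hP : InC M R E kd P)
    (hmin : ∀ Z, InC M R E kd Z → cub M S P ≤ cub M S Z) :
    ∃ (tg : ℕ → Bool) (L : ℕ → ℕ → ℕ → ℕ → ℝ), (∀ r, kd r = 0 → tg r = true) ∧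
      ∀ (md : Bool) (Z : ℕ → ℝ) (ε : ℝ), Z 0 = 1 → (∀ r < R, kd r = 0 → lf M (E r) Z = 0) →
        (∀ r < R, kd r = 1 → ε ≤ lf M (E r) Z) → (∀ r < R, kd r ≠ 0 → 0 ≤ lf M (E r) Z) →
        0 < ε → (md = true → cub M S P ≤ -ε) →
        (md = false → cub M S P ≤ 0 ∧ ∀ a < M, Z a = P a) →
        Half M R E kd tg S md (fun a b c => P a * P b * P c) L Z ε := by
  classical
  set tg : ℕ → Bool := fun r => decide (kd r = 0) || decide (lf M (E r) P = 0) with htg
  have htg' : ∀ r, tg r = true ↔ (kd r = 0 ∨ lf M (E r) P = 0) := by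
    intro r
    simp [htg]
  have htight : ∀ r < R, tg r = true → lf M (E r) P = 0 := by
    intro r hr h
    rcases (htg' r).mp h with h | h
    · exact hP.eqz r hr h
    · exact h
  obtain ⟨L, hL1, hL2⟩ := hDIR M R E tg S P hM hS hP.one htight (by
    intro w hw
    exact hSOC M R E kd S hM hS P hP hmin w fun r hr h => hw r hr ((htg' r).mpr h))
  refine ⟨tg, L, fun r h => (htg' r).mpr (Or.inl h), ?_⟩
  intro md Z ε z0 zz zp zw hε m1 m2
  refine ⟨?_, ?_, ?_, ?_, ?_, ?_, hL1, hL2, z0, zz, zp, zw, hε, m1, ?_⟩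
  · simp [hP.one]
  · intro a _ b _ c _
    ring
  · intro a _ b _ c _
    ring
  · intro v
    have e : ∑ a ∈ range M, ∑ b ∈ range M, v a * v b * (P 0 * P a * P b + P 0 * P b * P a) =
        2 * (∑ a ∈ range M, v a * P a) ^ 2 := by
      rw [sq, Finset.sum_mul_sum, Finset.mul_sum]
      refine Finset.sum_congr rfl fun a _ => ?_
      rw [Finset.mul_sum]
      refine Finset.sum_congr rfl fun b _ => ?_
      rw [hP.one]; ring
    rw [e]
    positivity
  · intro r hr h a _ b _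
    have e : ∑ m ∈ range M, E r m * (P m * P a * P b) = lf M (E r) P * (P a * P b) := by
      unfold lf
      rw [Finset.sum_mul]
      exact Finset.sum_congr rfl fun m _ => by ring
    rw [e, htight r hr h, zero_mul]
  · intro r hr h
    have e : ∑ m ∈ range M, E r m * (P m * P 0 * P 0) = lf M (E r) P := by
      unfold lf
      exact Finset.sum_congr rfl fun m _ => by rw [hP.one]; ring
    rw [e]
    exact hP.weak r hr h
  · intro h
    refine ⟨(m2 h).1, fun a ha => ?_⟩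
    rw [(m2 h).2 a ha, hP.one]
    ring

theorem st_HC (hMIN : ST_MIN) (hSOC : ST_SOC) (hDIR : ST_DIR) : ST_HC := by
  intro M R E kd S hM hS hbd X hX
  have hXC : InC M R E kd X := ⟨hX.one, hX.eqz, hX.weak⟩
  obtain ⟨P, hP, hmin⟩ := hMIN M R E kd S hM hbd ⟨X, hXC⟩
  obtain ⟨ε1, h1, h1f⟩ := exists_pos_le R (fun r => lf M (E r) X)
  have hxp : ∀ ε ≤ ε1, ∀ r < R, kd r = 1 → ε ≤ lf M (E r) X := by
    intro ε hε r hr hk
    exact hε.trans (h1f r hr (hX.pos r hr hk))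
  have main : cub M S P < 0 → ∃ (tg : ℕ → Bool) (y : ℕ → ℕ → ℕ → ℝ) (L : ℕ → ℕ → ℕ → ℕ → ℝ)
      (Z : ℕ → ℝ) (ε : ℝ), (∀ r, kd r = 0 → tg r = true) ∧ Half M R E kd tg S true y L Z ε := by
    intro hneg
    obtain ⟨tg, L, ht, hH⟩ := core hSOC hDIR M R E kd S hM hS P hP hmin
    refine ⟨tg, _, L, X, min ε1 (-cub M S P), ht, hH true X (min ε1 (-cub M S P)) hX.one hX.eqz
      (hxp _ (min_le_left _ _)) hX.weak (lt_min h1 (by linarith)) ?_ ?_⟩
    · intro _
      have := min_le_right ε1 (-cub M S P)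
      linarith
    · intro h
      exact absurd h (by decide)
  refine ⟨fun h => main (lt_of_le_of_lt (hmin X hXC) h), fun h => ?_⟩
  by_cases hP0 : cub M S P < 0
  · obtain ⟨tg, y, L, Z, ε, h1, h2⟩ := main hP0
    exact ⟨true, tg, y, L, Z, ε, h1, h2⟩
  · have hX0 : cub M S X ≤ cub M S P := by
      push Not at hP0
      linarith
    obtain ⟨tg, L, ht, hH⟩ := core hSOC hDIR M R E kd S hM hS X hXC
      (fun Z hZ => hX0.trans (hmin Z hZ))
    refine ⟨false, tg, _, L, X, ε1, ht, hH false X ε1 hX.one hX.eqz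
      (hxp _ le_rfl) hX.weak h1 ?_ ?_⟩
    · intro h
      exact absurd h (by decide)
    · intro _
      exact ⟨h, fun _ _ => rfl⟩

end Pool.Agent.Helper46.DCT
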