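import Pool.Agent.Helper46.DCT.SOC

namespace Pool.Agent.Helper46.DCT

open Finset Pool.Agent.Helper54.ETR Pool.Agent.Helper54.Poly Pool.Agent.Helper54.DT

/-- evaluation of a row of the test vector -/
theorem del (M a : ℕ) (ha : a ∈ Ico 1 M) (p q : ℝ) (f : ℕ → ℝ) :
    ∑ α ∈ range M, (p * (if α = a then 1 else 0) + q * (if α = 0 then 1 else 0)) * f α =
      p * f a + q * f 0 := by
  rw [Finset.mem_Ico] at ha
  have h1 : ∑ α ∈ range M, (p * (if α = a then (1 : ℝ) else 0)) * f α = p * f a := by
    rw [Finset.sum_eq_single a]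
    · simp
    · intro b _ hb; simp [hb]
    · intro h; exact absurd (Finset.mem_range.mpr ha.2) h
  have h2 : ∑ α ∈ range M, (q * (if α = 0 then (1 : ℝ) else 0)) * f α = q * f 0 := by
    rw [Finset.sum_eq_single 0]
    · simp
    · intro b _ hb; simp [hb]
    · intro h; exact absurd (Finset.mem_range.mpr (by omega)) h
  rw [← h1, ← h2, ← Finset.sum_add_distrib]
  exact Finset.sum_congr rfl fun α _ => by ring

theorem loc_eval (M : ℕ) (p q : ℕ → ℝ) (F : ℕ → ℕ → ℕ → ℕ → ℝ) :
    ∑ a ∈ Ico 1 M, ∑ α ∈ range M, ∑ b ∈ Ico 1 M, ∑ β ∈ range M,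
      (p a * (if α = a then 1 else 0) + q a * (if α = 0 then 1 else 0)) *
        (p b * (if β = b then 1 else 0) + q b * (if β = 0 then 1 else 0)) * F a α b β =
    ∑ a ∈ Ico 1 M, ∑ b ∈ Ico 1 M, (p a * p b * F a a b b + p a * q b * F a a b 0 +
      q a * p b * F a 0 b b + q a * q b * F a 0 b 0) := by
  refine Finset.sum_congr rfl fun a ha => ?_
  have h1 : ∀ α, ∑ b ∈ Ico 1 M, ∑ β ∈ range M,
      (p a * (if α = a then 1 else 0) + q a * (if α = 0 then 1 else 0)) *
        (p b * (if β = b then 1 else 0) + q b * (if β = 0 then 1 else 0)) * F a α b β =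
      (p a * (if α = a then 1 else 0) + q a * (if α = 0 then 1 else 0)) *
        (∑ b ∈ Ico 1 M, (p b * F a α b b + q b * F a α b 0)) := by
    intro α
    rw [Finset.mul_sum]
    refine Finset.sum_congr rfl fun b hb => ?_
    rw [← del M b hb (p b) (q b) (fun β => F a α b β), Finset.mul_sum]
    exact Finset.sum_congr rfl fun β _ => by ring
  rw [Finset.sum_congr rfl fun α _ => h1 α]
  rw [del M a ha (p a) (q a) (fun α => ∑ b ∈ Ico 1 M, (p b * F a α b b + q b * F a α b 0))]
  simp only [Finset.mul_sum]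
  rw [← Finset.sum_add_distrib]
  exact Finset.sum_congr rfl fun b _ => by ring

/-- full range from `Ico 1 M` in two variables -/
theorem full2 (M : ℕ) (hM : 1 ≤ M) (G : ℕ → ℕ → ℝ) (h1 : ∀ b, G 0 b = 0) (h2 : ∀ a, G a 0 = 0) :
    ∑ a ∈ Ico 1 M, ∑ b ∈ Ico 1 M, G a b = ∑ a ∈ range M, ∑ b ∈ range M, G a b := by
  rw [← sum_Ico_range M hM (fun a => ∑ b ∈ range M, G a b) (by simp [h1])]
  exact Finset.sum_congr rfl fun a _ => sum_Ico_range M hM (fun b => G a b) (h2 a)

theorem st_HS1 (hK : ST_PSDK) : ST_HS1 := by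
  intro M R E kd tg S md y L X ε hM hS htg hH
  set x : ℕ → ℝ := fun a => y a 0 0 with hx
  have hM0 : 0 < M := by omega
  have x0 : x 0 = 1 := hH.y0
  have hInC : InC M R E kd x :=
    ⟨x0, fun r hr hk => hH.tight r hr (htg r hr hk) 0 hM0 0 hM0, fun r hr hk => hH.row r hr hk⟩
  refine ⟨hInC, ?_⟩
  have S1 : ∀ a c, S a 0 c = 0 := fun a c => by rw [hS.s1 a 0 c, hS.s0]
  have S2 : ∀ a b, S a b 0 = 0 := fun a b => by rw [hS.s2 a b 0, S1]
  -- symmetric forms of y
  have y12 := hH.y1
  have y23 := hH.y2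
  have yc : ∀ a < M, ∀ b < M, ∀ c < M, y c a b = y a b c := by
    intro a ha b hb c hc
    rw [y12 c hc a ha b hb, y23 a ha c hc b hb]
  -- rows
  have rowx : ∀ r < R, tg r = true → ∑ a ∈ Ico 1 M, E r a * x a = - E r 0 := by
    intro r hr ht
    have h := hH.tight r hr ht 0 hM0 0 hM0
    rw [Finset.range_eq_Ico, Finset.sum_eq_sum_Ico_succ_bot hM0] at h
    have h' : E r 0 * x 0 + ∑ a ∈ Ico 1 M, E r a * x a = 0 := h
    rw [x0] at h'
    linarith
  have rowL : ∀ r < R, tg r = true → ∀ b < M, ∀ c < M,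
      ∑ a ∈ Ico 1 M, E r a * L r a b c = - (E r 0 * L r 0 b c) := by
    intro r hr ht b hb c hc
    have h := hH.lam r hr ht b hb c hc
    rw [Finset.range_eq_Ico, Finset.sum_eq_sum_Ico_succ_bot hM0] at h
    have h' : E r 0 * L r 0 b c + ∑ a ∈ Ico 1 M, E r a * L r a b c = 0 := h
    linarith
  -- the L part vanishes
  have hLam : ∀ (p q : ℕ → ℝ), (∀ r < R, tg r = true → ∀ b ∈ Ico 1 M,
      ∑ a ∈ Ico 1 M, (p a * p b * (E r a * L r a b b) + p a * q b * (E r a * L r a b 0) +
        q a * p b * (E r a * L r 0 b b) + q a * q b * (E r a * L r 0 b 0)) = 0) →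
      0 ≤ ∑ a ∈ Ico 1 M, ∑ b ∈ Ico 1 M, ∑ c ∈ range M, S a b c *
        (p a * p b * y c a b + p a * q b * y c a 0 + q a * p b * y c 0 b + q a * q b * x c) := by
    intro p q hz
    have h := hH.loc fun a α => p a * (if α = a then 1 else 0) + q a * (if α = 0 then 1 else 0)
    rw [loc_eval] at h
    set f : ℕ → ℕ → ℕ → ℝ := fun r a b =>
      p a * p b * (E r a * L r a b b) + p a * q b * (E r a * L r a b 0) +
        q a * p b * (E r a * L r 0 b b) + q a * q b * (E r a * L r 0 b 0) with hf
    have e : ∀ a ∈ Ico 1 M, ∀ b ∈ Ico 1 M,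
        p a * p b * locF M R E tg S y L a a b b + p a * q b * locF M R E tg S y L a a b 0 +
        q a * p b * locF M R E tg S y L a 0 b b + q a * q b * locF M R E tg S y L a 0 b 0 =
        2 * (∑ c ∈ range M, S a b c *
        (p a * p b * y c a b + p a * q b * y c a 0 + q a * p b * y c 0 b + q a * q b * x c)) +
        ∑ r ∈ range R, (if tg r then f r a b + f r b a else 0) := by
      intro a ha b hb
      rw [Finset.mem_Ico] at ha hb
      have l1 : ∀ α < M, ∀ β < M, locF M R E tg S y L a α b β =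
          2 * (∑ c ∈ range M, S a b c * y c α β) +
          ∑ r ∈ range R, (if tg r then E r a * L r α b β + E r b * L r β a α else 0) := by
        intro α hα β hβ
        unfold locF
        congr 1
        rw [Finset.mul_sum]
        refine Finset.sum_congr rfl fun c hc => ?_
        rw [Finset.mem_range] at hc
        rw [y23 c hc β hβ α hα]
        ring
      rw [l1 a ha.2 b hb.2, l1 a ha.2 0 hM0, l1 0 hM0 b hb.2, l1 0 hM0 0 hM0]
      have e1 : ∑ c ∈ range M, S a b c *
          (p a * p b * y c a b + p a * q b * y c a 0 + q a * p b * y c 0 b + q a * q b * x c) =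
          p a * p b * (∑ c ∈ range M, S a b c * y c a b) +
          p a * q b * (∑ c ∈ range M, S a b c * y c a 0) +
          q a * p b * (∑ c ∈ range M, S a b c * y c 0 b) +
          q a * q b * (∑ c ∈ range M, S a b c * y c 0 0) := by
        simp only [Finset.mul_sum, ← Finset.sum_add_distrib]
        exact Finset.sum_congr rfl fun c _ => by simp only [hx]; ring
      have e2 : ∑ r ∈ range R, (if tg r then f r a b + f r b a else 0) =
          p a * p b * (∑ r ∈ range R,
            (if tg r then E r a * L r a b b + E r b * L r b a a else 0)) +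
          p a * q b * (∑ r ∈ range R,
            (if tg r then E r a * L r a b 0 + E r b * L r 0 a a else 0)) +
          q a * p b * (∑ r ∈ range R,
            (if tg r then E r a * L r 0 b b + E r b * L r b a 0 else 0)) +
          q a * q b * (∑ r ∈ range R,
            (if tg r then E r a * L r 0 b 0 + E r b * L r 0 a 0 else 0)) := by
        simp only [Finset.mul_sum, ← Finset.sum_add_distrib]
        refine Finset.sum_congr rfl fun r _ => ?_
        split_ifs
        · simp only [hf]; ring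
        · ring
      rw [e1, e2]
      ring
    have h5 : ∀ r ∈ range R, ∑ a ∈ Ico 1 M, ∑ b ∈ Ico 1 M,
        (if tg r then f r a b + f r b a else 0) = 0 := by
      intro r hr
      rw [Finset.mem_range] at hr
      by_cases ht : tg r = true
      · simp only [ht, if_true, Finset.sum_add_distrib]
        have z : ∀ b ∈ Ico 1 M, ∑ a ∈ Ico 1 M, f r a b = 0 := fun b hb => hz r hr ht b hb
        have z1 : ∑ a ∈ Ico 1 M, ∑ b ∈ Ico 1 M, f r a b = 0 := by
          rw [Finset.sum_comm]
          exact Finset.sum_eq_zero z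
        have z2 : ∑ a ∈ Ico 1 M, ∑ b ∈ Ico 1 M, f r b a = 0 := Finset.sum_eq_zero z
        rw [z1, z2, add_zero]
      · simp [ht]
    rw [Finset.sum_congr rfl fun a ha => Finset.sum_congr rfl fun b hb => e a ha b hb] at h
    simp only [Finset.sum_add_distrib] at h
    have h6 : ∑ a ∈ Ico 1 M, ∑ b ∈ Ico 1 M, ∑ r ∈ range R,
        (if tg r then f r a b + f r b a else 0) = 0 := by
      calc ∑ a ∈ Ico 1 M, ∑ b ∈ Ico 1 M, ∑ r ∈ range R,
            (if tg r then f r a b + f r b a else 0)
          = ∑ a ∈ Ico 1 M, ∑ r ∈ range R, ∑ b ∈ Ico 1 M,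
            (if tg r then f r a b + f r b a else 0) :=
            Finset.sum_congr rfl fun a _ => Finset.sum_comm
        _ = ∑ r ∈ range R, ∑ a ∈ Ico 1 M, ∑ b ∈ Ico 1 M,
            (if tg r then f r a b + f r b a else 0) := Finset.sum_comm
        _ = 0 := Finset.sum_eq_zero h5
    rw [h6, add_zero] at h
    simp only [← Finset.mul_sum] at h
    linarith
  -- first test vector
  have hA := hLam (fun _ => 1) (fun a => - x a) (by
    intro r hr ht b hb
    have hb' := (Finset.mem_Ico.mp hb).2
    have e : ∑ a ∈ Ico 1 M, ((1 : ℝ) * 1 * (E r a * L r a b b) + 1 * -x b * (E r a * L r a b 0) +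
        -x a * 1 * (E r a * L r 0 b b) + -x a * -x b * (E r a * L r 0 b 0)) =
        (∑ a ∈ Ico 1 M, E r a * L r a b b) - x b * (∑ a ∈ Ico 1 M, E r a * L r a b 0) -
        (∑ a ∈ Ico 1 M, E r a * x a) * L r 0 b b +
        (∑ a ∈ Ico 1 M, E r a * x a) * (x b * L r 0 b 0) := by
      simp only [Finset.mul_sum, Finset.sum_mul, ← Finset.sum_add_distrib,
        ← Finset.sum_sub_distrib]
      exact Finset.sum_congr rfl fun a _ => by ring
    rw [e, rowx r hr ht, rowL r hr ht b hb' b hb', rowL r hr ht b hb' 0 hM0]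
    ring)
  -- second test vector
  have hB : ∀ w : ℕ → ℝ, (∀ r < R, tg r = true → ∑ i ∈ Ico 1 M, E r i * w i = 0) →
      0 ≤ ∑ i ∈ Ico 1 M, ∑ j ∈ Ico 1 M, w i * w j * (∑ c ∈ range M, S i j c * x c) := by
    intro w hw
    have h := hLam (fun _ => 0) w (by
      intro r hr ht b hb
      have e : ∑ a ∈ Ico 1 M, ((0 : ℝ) * 0 * (E r a * L r a b b) + 0 * w b * (E r a * L r a b 0) +
          w a * 0 * (E r a * L r 0 b b) + w a * w b * (E r a * L r 0 b 0)) =
          (∑ a ∈ Ico 1 M, E r a * w a) * (w b * L r 0 b 0) := by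
        rw [Finset.sum_mul]
        exact Finset.sum_congr rfl fun a _ => by ring
      rw [e, hw r hr ht, zero_mul])
    refine h.trans (le_of_eq ?_)
    refine Finset.sum_congr rfl fun a _ => Finset.sum_congr rfl fun b _ => ?_
    rw [Finset.mul_sum]
    exact Finset.sum_congr rfl fun c _ => by ring
  -- the covariance matrix
  set C : ℕ → ℕ → ℝ := fun i j => if i < M ∧ j < M then y i j 0 - x i * x j else 0 with hC
  have hCC : ∀ i ∈ Ico 1 M, ∀ j ∈ Ico 1 M, C i j = y i j 0 - x i * x j := by
    intro i hi j hj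
    rw [Finset.mem_Ico] at hi hj
    simp [hC, hi.2, hj.2]
  have hD := hK M R (fun i j => ∑ c ∈ range M, S i j c * x c) C E tg
    (by
      intro i j
      simp only [hC]
      by_cases h : i < M ∧ j < M
      · have h' : j < M ∧ i < M := ⟨h.2, h.1⟩
        rw [if_pos h, if_pos h', y12 i h.1 j h.2 0 hM0]
        ring
      · have h' : ¬ (j < M ∧ i < M) := fun h2 => h ⟨h2.2, h2.1⟩
        rw [if_neg h, if_neg h'])
    (by
      intro w
      set s : ℝ := ∑ i ∈ Ico 1 M, w i * x i with hs
      have h := hH.mom fun a => if a = 0 then - s else w a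
      have e0 : ∀ f : ℕ → ℝ, ∑ a ∈ range M, (if a = 0 then - s else w a) * f a =
          - s * f 0 + ∑ a ∈ Ico 1 M, w a * f a := by
        intro f
        rw [Finset.range_eq_Ico, Finset.sum_eq_sum_Ico_succ_bot hM0]
        congr 1
        refine Finset.sum_congr rfl fun a ha => ?_
        have : a ≠ 0 := by rw [Finset.mem_Ico] at ha; omega
        rw [if_neg this]
      have e : ∑ a ∈ range M, ∑ b ∈ range M, (if a = 0 then - s else w a) *
          (if b = 0 then - s else w b) * (y 0 a b + y 0 b a) =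
          2 * ∑ i ∈ Ico 1 M, ∑ j ∈ Ico 1 M, w i * w j * C i j := by
        have e1 : ∀ a, ∑ b ∈ range M, (if a = 0 then - s else w a) *
            (if b = 0 then - s else w b) * (y 0 a b + y 0 b a) =
            (if a = 0 then - s else w a) * (- s * (y 0 a 0 + y 0 0 a) +
              ∑ b ∈ Ico 1 M, w b * (y 0 a b + y 0 b a)) := by
          intro a
          rw [← e0 fun b => y 0 a b + y 0 b a, Finset.mul_sum]
          exact Finset.sum_congr rfl fun b _ => by ring
        rw [Finset.sum_congr rfl fun a _ => e1 a, e0]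
        have e2 : ∀ a < M, y 0 a 0 + y 0 0 a = 2 * x a := by
          intro a ha
          have : y 0 0 a = y 0 a 0 := y23 0 hM0 0 hM0 a ha
          rw [this, y12 0 hM0 a ha 0 hM0]
          ring
        have e3 : ∑ b ∈ Ico 1 M, w b * (y 0 0 b + y 0 b 0) = 2 * s := by
          rw [hs, Finset.mul_sum]
          refine Finset.sum_congr rfl fun b hb => ?_
          rw [add_comm (y 0 0 b), e2 b (Finset.mem_Ico.mp hb).2]
          ring
        have e4 : ∑ a ∈ Ico 1 M, w a * (- s * (y 0 a 0 + y 0 0 a) +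
              ∑ b ∈ Ico 1 M, w b * (y 0 a b + y 0 b a)) =
            - 2 * s * s + ∑ a ∈ Ico 1 M, ∑ b ∈ Ico 1 M, w a * w b * (2 * y a b 0) := by
          have e5 : -2 * s * s = ∑ a ∈ Ico 1 M, w a * (- s * (2 * x a)) := by
            conv_lhs => rw [hs]
            rw [← hs, Finset.mul_sum]
            exact Finset.sum_congr rfl fun a _ => by ring
          rw [e5, ← Finset.sum_add_distrib]
          refine Finset.sum_congr rfl fun a ha => ?_
          have ha' := (Finset.mem_Ico.mp ha).2
          rw [e2 a ha', mul_add]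
          congr 1
          rw [Finset.mul_sum]
          refine Finset.sum_congr rfl fun b hb => ?_
          have hb' := (Finset.mem_Ico.mp hb).2
          rw [yc a ha' b hb' 0 hM0, yc b hb' a ha' 0 hM0, y12 b hb' a ha' 0 hM0]
          ring
        rw [e3, e4]
        have e6 : ∑ i ∈ Ico 1 M, ∑ j ∈ Ico 1 M, w i * w j * C i j =
            (∑ i ∈ Ico 1 M, ∑ j ∈ Ico 1 M, w i * w j * y i j 0) - s * s := by
          rw [hs, Finset.sum_mul_sum, ← Finset.sum_sub_distrib]
          refine Finset.sum_congr rfl fun i hi => ?_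
          rw [← Finset.sum_sub_distrib]
          refine Finset.sum_congr rfl fun j hj => ?_
          rw [hCC i hi j hj]
          ring
        have e7 : ∑ a ∈ Ico 1 M, ∑ b ∈ Ico 1 M, w a * w b * (2 * y a b 0) =
            2 * ∑ i ∈ Ico 1 M, ∑ j ∈ Ico 1 M, w i * w j * y i j 0 := by
          simp only [Finset.mul_sum]
          exact Finset.sum_congr rfl fun a _ => Finset.sum_congr rfl fun b _ => by ring
        have e8 : y 0 0 0 = 1 := x0
        rw [e6, e7, e8]
        ring
      rw [e] at h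
      linarith)
    (by
      intro r hr ht j hj
      have hj' := (Finset.mem_Ico.mp hj).2
      have h := hH.tight r hr ht j hj' 0 hM0
      rw [Finset.range_eq_Ico, Finset.sum_eq_sum_Ico_succ_bot hM0] at h
      have h' : E r 0 * y 0 j 0 + ∑ i ∈ Ico 1 M, E r i * y i j 0 = 0 := h
      have e : ∑ i ∈ Ico 1 M, E r i * C i j =
          (∑ i ∈ Ico 1 M, E r i * y i j 0) - (∑ i ∈ Ico 1 M, E r i * x i) * x j := by
        rw [Finset.sum_mul, ← Finset.sum_sub_distrib]
        refine Finset.sum_congr rfl fun i hi => ?_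
        rw [hCC i hi j hj]
        ring
      rw [e, rowx r hr ht]
      have e2 : y 0 j 0 = x j := y12 0 hM0 j hj' 0 hM0
      rw [e2] at h'
      linarith)
    hB
  -- conclusion
  have c1 : ∑ a ∈ Ico 1 M, ∑ b ∈ Ico 1 M, ∑ c ∈ range M, S a b c * y c a b =
      ∑ a ∈ range M, ∑ b ∈ range M, ∑ c ∈ range M, S a b c * y a b c := by
    rw [full2 M hM (fun a b => ∑ c ∈ range M, S a b c * y c a b)
      (fun b => Finset.sum_eq_zero fun c _ => by rw [hS.s0, zero_mul])
      (fun a => Finset.sum_eq_zero fun c _ => by rw [S1, zero_mul])]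
    refine Finset.sum_congr rfl fun a ha => Finset.sum_congr rfl fun b hb =>
      Finset.sum_congr rfl fun c hc => ?_
    rw [Finset.mem_range] at ha hb hc
    rw [yc a ha b hb c hc]
  have c4 : ∑ a ∈ Ico 1 M, ∑ b ∈ Ico 1 M, ∑ c ∈ range M, S a b c * (x a * x b * x c) =
      cub M S x :=
    full2 M hM (fun a b => ∑ c ∈ range M, S a b c * (x a * x b * x c))
      (fun b => Finset.sum_eq_zero fun c _ => by rw [hS.s0, zero_mul])
      (fun a => Finset.sum_eq_zero fun c _ => by rw [S1, zero_mul])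
  set Q : ℝ := ∑ a ∈ range M, ∑ b ∈ range M, ∑ c ∈ range M, S a b c * (x c * y a b 0) with hQ
  have c2 : ∑ a ∈ Ico 1 M, ∑ b ∈ Ico 1 M, ∑ c ∈ range M, S a b c * (x a * y c 0 b) = Q := by
    rw [full2 M hM (fun a b => ∑ c ∈ range M, S a b c * (x a * y c 0 b))
      (fun b => Finset.sum_eq_zero fun c _ => by rw [hS.s0, zero_mul])
      (fun a => Finset.sum_eq_zero fun c _ => by rw [S1, zero_mul])]
    -- (a, b, c) -> (c, b, a)
    calc ∑ a ∈ range M, ∑ b ∈ range M, ∑ c ∈ range M, S a b c * (x a * y c 0 b)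
        = ∑ b ∈ range M, ∑ a ∈ range M, ∑ c ∈ range M, S a b c * (x a * y c 0 b) :=
          Finset.sum_comm
      _ = ∑ b ∈ range M, ∑ c ∈ range M, ∑ a ∈ range M, S a b c * (x a * y c 0 b) :=
          Finset.sum_congr rfl fun b _ => Finset.sum_comm
      _ = Q := by
          rw [hQ]
          refine Finset.sum_congr rfl fun b hb => Finset.sum_congr rfl fun c hc =>
            Finset.sum_congr rfl fun a ha => ?_
          rw [Finset.mem_range] at ha hb hc
          rw [hS.s1 a b c, hS.s2 b a c, y23 c hc 0 hM0 b hb, y12 c hc b hb 0 hM0]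
  have c3 : ∑ a ∈ Ico 1 M, ∑ b ∈ Ico 1 M, ∑ c ∈ range M, S a b c * (x b * y c a 0) = Q := by
    rw [← c2, Finset.sum_comm]
    refine Finset.sum_congr rfl fun b hb => Finset.sum_congr rfl fun a ha =>
      Finset.sum_congr rfl fun c hc => ?_
    rw [Finset.mem_Ico] at ha hb
    rw [Finset.mem_range] at hc
    rw [hS.s1 a b c, y23 c hc a ha.2 0 hM0]
  have c5 : ∑ i ∈ Ico 1 M, ∑ j ∈ Ico 1 M, (∑ c ∈ range M, S i j c * x c) * C i j =
      Q - cub M S x := by
    have c6 : ∑ a ∈ Ico 1 M, ∑ b ∈ Ico 1 M, ∑ c ∈ range M, S a b c * (x c * y a b 0) = Q :=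
      full2 M hM (fun a b => ∑ c ∈ range M, S a b c * (x c * y a b 0))
        (fun b => Finset.sum_eq_zero fun c _ => by rw [hS.s0, zero_mul])
        (fun a => Finset.sum_eq_zero fun c _ => by rw [S1, zero_mul])
    rw [← c6, ← c4, ← Finset.sum_sub_distrib]
    refine Finset.sum_congr rfl fun i hi => ?_
    rw [← Finset.sum_sub_distrib]
    refine Finset.sum_congr rfl fun j hj => ?_
    rw [← Finset.sum_sub_distrib, hCC i hi j hj, Finset.sum_mul]
    exact Finset.sum_congr rfl fun c _ => by ring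
  have hA' : 0 ≤ (∑ a ∈ range M, ∑ b ∈ range M, ∑ c ∈ range M, S a b c * y a b c) - Q - Q +
      cub M S x := by
    refine hA.trans (le_of_eq ?_)
    rw [← c1, ← c4]
    nth_rewrite 1 [← c3]
    rw [← c2]
    simp only [← Finset.sum_add_distrib, ← Finset.sum_sub_distrib]
    exact Finset.sum_congr rfl fun a _ => Finset.sum_congr rfl fun b _ =>
      Finset.sum_congr rfl fun c _ => by ring
  rw [c5] at hD
  linarith

end Pool.Agent.Helper46.DCT
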