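import Pool.Agent.Helper54.DT.StmtsS

namespace Pool.Agent.Helper46.DCT

open Finset Pool.Agent.Helper54.ETR Pool.Agent.Helper54.Poly Pool.Agent.Helper54.DT

/-- the cubic along a line -/
theorem cub_line (M : ℕ) (S : ℕ → ℕ → ℕ → ℝ) (hS : Ten S) (X w : ℕ → ℝ) (t : ℝ) :
    cub M S (fun a => X a + t * w a) = cub M S X +
      3 * t * (∑ a ∈ range M, ∑ b ∈ range M, ∑ c ∈ range M, S a b c * (w a * X b * X c)) +
      3 * t ^ 2 * (∑ a ∈ range M, ∑ b ∈ range M, ∑ c ∈ range M, S a b c * (w a * w b * X c)) +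
      t ^ 3 * cub M S w := by
  have e1 : ∑ a ∈ range M, ∑ b ∈ range M, ∑ c ∈ range M, S a b c * (X a * w b * X c) =
      ∑ a ∈ range M, ∑ b ∈ range M, ∑ c ∈ range M, S a b c * (w a * X b * X c) := by
    rw [Finset.sum_comm]
    refine Finset.sum_congr rfl fun a _ => Finset.sum_congr rfl fun b _ =>
      Finset.sum_congr rfl fun c _ => ?_
    rw [hS.s1 b a c]; ring
  have e2 : ∑ a ∈ range M, ∑ b ∈ range M, ∑ c ∈ range M, S a b c * (X a * X b * w c) =
      ∑ a ∈ range M, ∑ b ∈ range M, ∑ c ∈ range M, S a b c * (w a * X b * X c) := by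
    rw [← e1]
    refine Finset.sum_congr rfl fun a _ => ?_
    rw [Finset.sum_comm]
    refine Finset.sum_congr rfl fun b _ =>
      Finset.sum_congr rfl fun c _ => ?_
    rw [hS.s2 a c b]; ring
  have e3 : ∑ a ∈ range M, ∑ b ∈ range M, ∑ c ∈ range M, S a b c * (w a * X b * w c) =
      ∑ a ∈ range M, ∑ b ∈ range M, ∑ c ∈ range M, S a b c * (w a * w b * X c) := by
    refine Finset.sum_congr rfl fun a _ => ?_
    rw [Finset.sum_comm]
    refine Finset.sum_congr rfl fun b _ =>
      Finset.sum_congr rfl fun c _ => ?_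
    rw [hS.s2 a c b]; ring
  have e4 : ∑ a ∈ range M, ∑ b ∈ range M, ∑ c ∈ range M, S a b c * (X a * w b * w c) =
      ∑ a ∈ range M, ∑ b ∈ range M, ∑ c ∈ range M, S a b c * (w a * w b * X c) := by
    rw [← e3, Finset.sum_comm]
    refine Finset.sum_congr rfl fun a _ => Finset.sum_congr rfl fun b _ =>
      Finset.sum_congr rfl fun c _ => ?_
    rw [hS.s1 b a c]; ring
  have e : cub M S (fun a => X a + t * w a) = cub M S X +
      t * (∑ a ∈ range M, ∑ b ∈ range M, ∑ c ∈ range M, S a b c * (w a * X b * X c)) +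
      t * (∑ a ∈ range M, ∑ b ∈ range M, ∑ c ∈ range M, S a b c * (X a * w b * X c)) +
      t * (∑ a ∈ range M, ∑ b ∈ range M, ∑ c ∈ range M, S a b c * (X a * X b * w c)) +
      t ^ 2 * (∑ a ∈ range M, ∑ b ∈ range M, ∑ c ∈ range M, S a b c * (w a * w b * X c)) +
      t ^ 2 * (∑ a ∈ range M, ∑ b ∈ range M, ∑ c ∈ range M, S a b c * (w a * X b * w c)) +
      t ^ 2 * (∑ a ∈ range M, ∑ b ∈ range M, ∑ c ∈ range M, S a b c * (X a * w b * w c)) +
      t ^ 3 * cub M S w := by
    unfold cub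
    simp only [Finset.mul_sum, ← Finset.sum_add_distrib]
    refine Finset.sum_congr rfl fun a _ => Finset.sum_congr rfl fun b _ =>
      Finset.sum_congr rfl fun c _ => ?_
    ring
  rw [e, e1, e2, e3, e4]
  ring

/-- finitely many positive numbers have a positive lower bound -/
theorem exists_pos_le (R : ℕ) (f : ℕ → ℝ) : ∃ ε > 0, ∀ r < R, 0 < f r → ε ≤ f r := by
  induction R with
  | zero => exact ⟨1, one_pos, fun r h => by omega⟩
  | succ n ih =>
    obtain ⟨ε, h0, h1⟩ := ih
    by_cases hp : 0 < f n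
    · refine ⟨min ε (f n), lt_min h0 hp, fun r hr h => ?_⟩
      by_cases h2 : r < n
      · exact (min_le_left _ _).trans (h1 r h2 h)
      · have : r = n := by omega
        subst this
        exact min_le_right _ _
    · refine ⟨ε, h0, fun r hr h => ?_⟩
      by_cases h2 : r < n
      · exact h1 r h2 h
      · have : r = n := by omega
        subst this
        exact absurd h hp

/-- extension of sums from `Ico 1 M` to `range M` -/
theorem sum_Ico_range (M : ℕ) (hM : 1 ≤ M) (f : ℕ → ℝ) (h0 : f 0 = 0) :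
    ∑ m ∈ Ico 1 M, f m = ∑ m ∈ range M, f m := by
  rw [Finset.range_eq_Ico, Finset.sum_eq_sum_Ico_succ_bot (by omega : 0 < M), h0, zero_add]

theorem st_SOC : ST_SOC := by
  intro M R E kd S hM hS X hX hmin w hw
  set w' : ℕ → ℝ := fun a => if a = 0 then 0 else w a with hw'
  have w0 : w' 0 = 0 := by simp [hw']
  have wI : ∀ a ∈ Ico 1 M, w' a = w a := by
    intro a ha
    have : a ≠ 0 := by rw [Finset.mem_Ico] at ha; omega
    simp [hw', this]
  have hlf : ∀ r, lf M (E r) w' = ∑ m ∈ Ico 1 M, E r m * w m := by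
    intro r
    unfold lf
    rw [← sum_Ico_range M hM (fun m => E r m * w' m) (by simp only [w0, mul_zero])]
    exact Finset.sum_congr rfl fun m hm => by rw [wI m hm]
  have hlin : ∀ r (t : ℝ), lf M (E r) (fun a => X a + t * w' a) =
      lf M (E r) X + t * lf M (E r) w' := by
    intro r t
    unfold lf
    rw [Finset.mul_sum, ← Finset.sum_add_distrib]
    exact Finset.sum_congr rfl fun m _ => by ring
  -- feasible for small t
  obtain ⟨ε, hε, hεf⟩ := exists_pos_le R (fun r => lf M (E r) X)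
  set B : ℝ := ∑ r ∈ range R, |lf M (E r) w'| + 1 with hB
  have hBp : 0 < B := by
    have : 0 ≤ ∑ r ∈ range R, |lf M (E r) w'| := Finset.sum_nonneg fun _ _ => abs_nonneg _
    linarith
  have hBr : ∀ r < R, |lf M (E r) w'| ≤ B := by
    intro r hr
    have := Finset.single_le_sum (f := fun r => |lf M (E r) w'|) (fun _ _ => abs_nonneg _)
      (Finset.mem_range.mpr hr)
    linarith
  have hfeas : ∀ t : ℝ, |t| ≤ ε / B → InC M R E kd (fun a => X a + t * w' a) := by
    intro t ht
    refine ⟨by simp [w0, hX.one], ?_, ?_⟩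
    · intro r hr hk
      rw [hlin, hX.eqz r hr hk, hlf, hw r hr (Or.inl hk)]
      simp
    · intro r hr hk
      rw [hlin]
      rcases (hX.weak r hr hk).lt_or_eq with hlt | heq
      · have h1 := hεf r hr hlt
        have h2 : |t * lf M (E r) w'| ≤ ε := by
          rw [abs_mul]
          calc |t| * |lf M (E r) w'| ≤ (ε / B) * B :=
                mul_le_mul ht (hBr r hr) (abs_nonneg _) (div_nonneg hε.le hBp.le)
            _ = ε := by field_simp
        have h3 := (abs_le.mp h2).1
        linarith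
      · rw [hlf, hw r hr (Or.inr heq.symm), ← heq]
        simp
  set Q : ℝ := ∑ a ∈ range M, ∑ b ∈ range M, ∑ c ∈ range M, S a b c * (w' a * w' b * X c) with hQ
  have hQw : ∑ a ∈ Ico 1 M, ∑ b ∈ Ico 1 M, w a * w b * ∑ c ∈ range M, S a b c * X c = Q := by
    rw [hQ, ← sum_Ico_range M hM (fun a => ∑ b ∈ range M, ∑ c ∈ range M,
      S a b c * (w' a * w' b * X c)) (by simp [w0])]
    refine Finset.sum_congr rfl fun a ha => ?_
    rw [← sum_Ico_range M hM (fun b => ∑ c ∈ range M, S a b c * (w' a * w' b * X c))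
      (by simp [w0])]
    refine Finset.sum_congr rfl fun b hb => ?_
    rw [wI a ha, wI b hb, Finset.mul_sum]
    exact Finset.sum_congr rfl fun c _ => by ring
  rw [hQw]
  set D : ℝ := ∑ a ∈ range M, ∑ b ∈ range M, ∑ c ∈ range M, S a b c * (w' a * X b * X c)
  by_contra hneg
  push_neg at hneg
  -- adding the two inequalities
  have h2 : ∀ t : ℝ, |t| ≤ ε / B → 0 ≤ 6 * t ^ 2 * Q := by
    intro t ht
    have a1 := hmin _ (hfeas t ht)
    have a2 := hmin _ (hfeas (-t) (by rwa [abs_neg]))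
    rw [cub_line M S hS] at a1 a2
    have e3 : (-t) ^ 3 = - t ^ 3 := by ring
    have e2 : (-t) ^ 2 = t ^ 2 := by ring
    rw [e3, e2] at a2
    linarith
  have h3 := h2 (ε / B) (by rw [abs_of_pos (div_pos hε hBp)])
  have h4 : 0 < (ε / B) ^ 2 := pow_pos (div_pos hε hBp) 2
  nlinarith

end Pool.Agent.Helper46.DCT
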